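import Pool.Agent.Lib.MP_2dc536_an.Step

/-!
Explicit super- and subsolutions, and the resulting bounds for the Green function.
-/

namespace Pool.Agent.Lib.MP_2dc536_an

open Real Set MeasureTheory Filter Topology
open scoped ENNReal

/-- The weights. -/
noncomputable def wt (α β x : ℝ) : ℝ≥0∞ := ENNReal.ofReal (α / x + β / (x * qq x))

lemma measurable_wt (α β : ℝ) : Measurable (wt α β) := by
  have := measurable_qq
  unfold wt; fun_prop

lemma ratio_bounds {n : ℕ} (hn : 6000 ≤ qq n) {t : ℝ} (h1 : n ≤ t) (h2 : t ≤ n + 1) :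
    ∃ w : ℝ, w = 1 / qq n ∧ 0 < w ∧ w ≤ 1 / 6000 ∧ w * qq n = 1 ∧ t ≤ n * (1 + w ^ 2) ∧
      qq t ≤ qq n * (1 + w ^ 2) ∧ 0 < (n : ℝ) ∧ 0 < qq n ∧ qq n ≤ qq t := by
  have hp : 0 < qq n := by linarith
  have hn0 : (0 : ℝ) < n := n_pos (by linarith)
  obtain ⟨w, hw⟩ : ∃ w, w = 1 / qq n := ⟨_, rfl⟩
  have hw0 : 0 < w := by rw [hw]; positivity
  have hw1 : w ≤ 1 / 6000 := by rw [hw]; gcongr
  have hnw : (n : ℝ) * w ^ 4 = 1 := by
    rw [← qq_pow (Nat.cast_nonneg n), hw]; field_simp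
  have h3 : t ≤ n * (1 + w ^ 2) := by
    have : (n : ℝ) * w ^ 4 ≤ n * w ^ 2 := by
      gcongr ?_ * ?_
      exact pow_le_pow_of_le_one hw0.le (by linarith) (by norm_num)
    linarith
  refine ⟨w, hw, hw0, hw1, by rw [hw]; field_simp, h3, ?_, hn0, hp, qq_mono h1⟩
  refine qq_le (by positivity) (by linarith) (h3.trans ?_)
  rw [mul_pow, qq_pow hn0.le]
  gcongr
  exact le_self_pow₀ (by nlinarith [sq_nonneg w]) (by norm_num)

lemma wt_div (α γ : ℝ) {y : ℝ} (hy : 0 < y) (s : ℝ) :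
    wt α γ (y / mm s) * ENNReal.ofReal (mm s)⁻¹ =
      ENNReal.ofReal (α / y + γ / (y * qq y) * qq (mm s)) := by
  have hs := mm_pos s
  have h1 := qq_pos hs
  have h2 := qq_pos hy
  rw [wt, ← ENNReal.ofReal_mul' (inv_pos.2 hs).le, qq_div hy.le]
  congr 1
  field_simp

lemma step_wt {N : ℕ} (hN : 6000 ≤ qq N) {α β : ℝ} (hα : 0 ≤ α) (hβ : 0 ≤ β) {g : ℝ → ℝ≥0∞}
    (hg : Measurable g) : ∫⁻ x in UD N, g (ff x) * wt α β x ≤
      ∫⁻ y in Ioi (0 : ℝ), g y * wt α (3 * α + 599 / 600 * β) y := by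
  refine (step_upper (by linarith) (measurable_wt α (3 * α + 513 / 512 * β)) hg ?_).trans ?_
  · intro n hn x hx t ht
    obtain ⟨w, hw, hw0, hw1, hwp, h3, h4, hn0, hp, h5⟩ :=
      ratio_bounds (hN.trans (qq_mono (by exact_mod_cast hn))) ht.1 ht.2.le
    have hx1 := (DD_subset hx).1
    have hx2 : qq n ≤ qq x := qq_mono hx1
    have ht0 : 0 < t := hn0.trans_le ht.1
    have hqt : 0 < qq t := qq_pos ht0
    have hqx : 0 < qq x := by linarith
    rw [wt, wt, ← ENNReal.ofReal_mul' (by positivity), ← hw]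
    refine ENNReal.ofReal_le_ofReal ?_
    have hw2 : w ^ 2 ≤ w / 6000 := by nlinarith
    have e1 : 1 / x ≤ (1 + w ^ 2) / t := by
      rw [div_le_div_iff₀ (by linarith) ht0]; nlinarith [sq_nonneg w]
    have e2 : 1 / qq x ≤ (1 + w ^ 2) / qq t := by
      rw [div_le_div_iff₀ (by linarith) hqt]; nlinarith [sq_nonneg w]
    have e3 : w ≤ (1 + w ^ 2) / qq t := by
      rw [le_div_iff₀ hqt]; nlinarith
    have e4 : α / x * (1 + w) ≤ α / t + 3 * α / (t * qq t) := by
      have h6 : (1 + w ^ 2) * (1 + w) ≤ 1 + 2 * w := by nlinarith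
      have h7 : 2 * w ≤ 3 / qq t := by
        have : 2 * ((1 + w ^ 2) / qq t) ≤ 3 / qq t := by
          rw [← mul_div_assoc]; gcongr; linarith
        linarith
      calc α / x * (1 + w) = α * (1 / x) * (1 + w) := by ring
        _ ≤ α * ((1 + w ^ 2) / t) * (1 + w) := by gcongr
        _ = α / t * ((1 + w ^ 2) * (1 + w)) := by ring
        _ ≤ α / t * (1 + 3 / qq t) := by gcongr; linarith
        _ = _ := by field_simp
    have e5 : β / (x * qq x) * (1 + w) ≤ 513 / 512 * β / (t * qq t) := by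
      have h6 : (1 + w ^ 2) * (1 + w ^ 2) * (1 + w) ≤ 513 / 512 := by nlinarith
      calc β / (x * qq x) * (1 + w) = β * (1 / x) * (1 / qq x) * (1 + w) := by
            field_simp
        _ ≤ β * ((1 + w ^ 2) / t) * ((1 + w ^ 2) / qq t) * (1 + w) := by gcongr
        _ = β / (t * qq t) * ((1 + w ^ 2) * (1 + w ^ 2) * (1 + w)) := by field_simp
        _ ≤ β / (t * qq t) * (513 / 512) := by gcongr
        _ = _ := by ring
    rw [add_mul, add_div (3 * α)]
    linarith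
  · refine setLIntegral_mono' measurableSet_Ioi fun y hy => ?_
    have hy : 0 < y := hy
    have h2 := qq_pos hy
    gcongr
    simp only [wt_div _ _ hy]
    refine (lint_qq_mm (by positivity) (by positivity)).trans (ENNReal.ofReal_le_ofReal ?_)
    rw [div_mul_eq_mul_div]
    gcongr
    linarith

/-- The killed Koopman operator. -/
noncomputable def PP (N : ℕ) (g : ℝ → ℝ≥0∞) : ℝ → ℝ≥0∞ := (UD N).indicator fun x => g (ff x)

lemma measurable_PP (N : ℕ) {g : ℝ → ℝ≥0∞} (hg : Measurable g) : Measurable (PP N g) :=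
  (hg.comp measurable_ff).indicator (measurableSet_UD N)

lemma measurable_PP_iter (N k : ℕ) {g : ℝ → ℝ≥0∞} (hg : Measurable g) :
    Measurable ((PP N)^[k] g) := by
  induction k with
  | zero => exact hg
  | succ k ih => rw [Function.iterate_succ_apply']; exact measurable_PP N ih

lemma lintegral_PP {N : ℕ} (hN : 10 ≤ qq N) (g W : ℝ → ℝ≥0∞) :
    ∫⁻ x in Ioi (0 : ℝ), PP N g x * W x = ∫⁻ x in UD N, g (ff x) * W x := by
  have : ∀ x, PP N g x * W x = (UD N).indicator (fun x => g (ff x) * W x) x := fun x => by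
    by_cases h : x ∈ UD N <;> simp [PP, h]
  simp only [this]
  rw [lintegral_indicator (measurableSet_UD N), Measure.restrict_restrict (measurableSet_UD N),
    inter_eq_left.2 (show UD N ⊆ Ioi 0 from fun x hx => (n_pos hN).trans_le (UD_subset N hx))]

lemma green_le {N : ℕ} {A B : (ℝ → ℝ≥0∞) → ℝ≥0∞}
    (h : ∀ g, Measurable g → A g + B (PP N g) ≤ B g) (K : ℕ) :
    ∀ g, Measurable g → ∑ k ∈ Finset.range K, A ((PP N)^[k] g) ≤ B g := by
  induction K with
  | zero => intro g _; simp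
  | succ K ih =>
    intro g hg
    rw [Finset.sum_range_succ', add_comm]
    exact le_trans (add_le_add le_rfl (ih _ (measurable_PP N hg))) (h g hg)

lemma green_ge {N : ℕ} {A B : (ℝ → ℝ≥0∞) → ℝ≥0∞}
    (h : ∀ g, Measurable g → B g ≤ A g + B (PP N g)) (K : ℕ) :
    ∀ g, Measurable g → B g ≤ ∑ k ∈ Finset.range K, A ((PP N)^[k] g) + B ((PP N)^[K] g) := by
  induction K with
  | zero => intro g _; simp
  | succ K ih =>
    intro g hg
    rw [Finset.sum_range_succ', add_comm _ (A _), add_assoc]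
    exact (h g hg).trans (add_le_add le_rfl (ih _ (measurable_PP N hg)))

lemma wt_add {α β α' β' y : ℝ} (hα : 0 ≤ α) (hβ : 0 ≤ β) (hα' : 0 ≤ α') (hβ' : 0 ≤ β')
    (hy : 0 < y) : wt α β y + wt α' β' y = wt (α + α') (β + β') y := by
  have := qq_pos hy
  rw [wt, wt, wt, ← ENNReal.ofReal_add (by positivity) (by positivity)]
  congr 1; ring

/-- The killed mass tends to zero. -/
lemma tendsto_PP {N : ℕ} (hN : 6000 ≤ qq N) {β : ℝ} (hβ : 0 ≤ β) {g : ℝ → ℝ≥0∞}
    (hg : Measurable g) (hfin : ∫⁻ y in Ioi (0 : ℝ), g y * wt 0 (600 * β) y ≠ ⊤) :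
    Tendsto (fun K => ∫⁻ y in Ioi (0 : ℝ), (PP N)^[K] g y * wt 0 β y) atTop (𝓝 0) := by
  refine ENNReal.tendsto_atTop_zero_of_tsum_ne_top (ne_top_of_le_ne_top hfin ?_)
  refine ENNReal.tsum_le_of_sum_range_le fun K => ?_
  refine green_le (A := fun g => ∫⁻ y in Ioi (0 : ℝ), g y * wt 0 β y)
    (B := fun g => ∫⁻ y in Ioi (0 : ℝ), g y * wt 0 (600 * β) y) (fun g hg => ?_) K g hg
  rw [lintegral_PP (by linarith)]
  refine (add_le_add le_rfl (step_wt hN le_rfl (by positivity) hg)).trans (le_of_eq ?_)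
  rw [← lintegral_add_left (f := fun y => g y * wt 0 β y) (hg.mul (measurable_wt _ _))]
  refine setLIntegral_congr_fun measurableSet_Ioi fun y hy => ?_
  rw [← mul_add, wt_add le_rfl hβ (by norm_num) (by positivity) hy]
  congr 2 <;> ring

lemma qq_eq_rpow {y : ℝ} (hy : 0 ≤ y) : qq y = y ^ (1 / 4 : ℝ) := by
  rw [qq, sqrt_eq_rpow, sqrt_eq_rpow, ← rpow_mul hy]; norm_num

lemma lintegral_wt {β a : ℝ} (hβ : 0 ≤ β) (ha : 0 < a) :
    ∫⁻ y in Ici a, wt 0 β y = ENNReal.ofReal (4 * β / qq a) := by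
  have hq : ∀ y : ℝ, 0 ≤ y → qq y = y ^ (1 / 4 : ℝ) := fun y hy => qq_eq_rpow hy
  have h1 : ∫⁻ y in Ioi a, wt 0 β y = ∫⁻ y in Ioi a, ENNReal.ofReal (β * y ^ (-5 / 4 : ℝ)) := by
    refine setLIntegral_congr_fun measurableSet_Ioi fun y hy => ?_
    have hy0 : 0 < y := ha.trans hy
    rw [wt, zero_div, zero_add, hq y hy0.le, show (-5 / 4 : ℝ) = -(1 + 1 / 4) by norm_num,
      rpow_neg hy0.le, rpow_add hy0, rpow_one, div_eq_mul_inv]
  rw [← setLIntegral_congr Ioi_ae_eq_Ici, h1, ← ofReal_integral_eq_lintegral_ofReal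
    ((integrableOn_Ioi_rpow_of_lt (by norm_num) ha).const_mul β), integral_const_mul,
    integral_Ioi_rpow_of_lt (by norm_num) ha, hq a ha.le,
    show (-5 / 4 + 1 : ℝ) = -(1 / 4) by norm_num, rpow_neg ha.le]
  · congr 1; field_simp
  · refine (ae_restrict_iff' measurableSet_Ioi).2 (Eventually.of_forall fun y hy => ?_)
    have hy0 : 0 < y := ha.trans hy
    simp only [Pi.zero_apply]
    positivity

end Pool.Agent.Lib.MP_2dc536_an
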