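import Mathlib

/-!
Local comparison of Chamberland's map on a unit interval with the random multiplier
`1 - cos (π s) / 2`.
-/

namespace Pool.Agent.Lib.MP_2dc536_an

open Real Set MeasureTheory
open scoped ENNReal

/-- Chamberland's map. -/
noncomputable def ff (x : ℝ) : ℝ := x + 1 / 4 - (x / 2 + 1 / 4) * cos (π * x)

/-- Its derivative. -/
noncomputable def ff' (x : ℝ) : ℝ := 1 - cos (π * x) / 2 + (x / 2 + 1 / 4) * (π * sin (π * x))

/-- The multiplier. -/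
noncomputable def mm (s : ℝ) : ℝ := 1 - cos (π * s) / 2

/-- The fourth root. -/
noncomputable def qq (x : ℝ) : ℝ := √(√x)

/-- The part of `[n, n + 1]` away from the integers. -/
def DD (n : ℕ) : Set ℝ := Icc (n + 1 / qq n) (n + 1 - 1 / qq n)

lemma hasDerivAt_ff (x : ℝ) : HasDerivAt ff (ff' x) x := by
  have h1 : HasDerivAt (fun x => cos (π * x)) (-sin (π * x) * (π * 1)) x :=
    ((hasDerivAt_id x).const_mul π).cos
  have h2 := (((hasDerivAt_id x).add_const (1 / 4)).sub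
    ((((hasDerivAt_id x).div_const 2).add_const (1 / 4)).mul h1))
  refine h2.congr_deriv ?_
  simp only [ff', id]; ring

lemma continuous_ff : Continuous ff := by unfold ff; fun_prop

lemma continuous_mm : Continuous mm := by unfold mm; fun_prop

lemma continuous_qq : Continuous qq := by unfold qq; fun_prop

lemma mm_ge (s : ℝ) : 1 / 2 ≤ mm s := by unfold mm; linarith [cos_le_one (π * s)]

lemma mm_le (s : ℝ) : mm s ≤ 3 / 2 := by unfold mm; linarith [neg_one_le_cos (π * s)]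

lemma mm_pos (s : ℝ) : 0 < mm s := by linarith [mm_ge s]

lemma qq_nonneg (x : ℝ) : 0 ≤ qq x := sqrt_nonneg _

lemma qq_pos {x : ℝ} (hx : 0 < x) : 0 < qq x := sqrt_pos.2 (sqrt_pos.2 hx)

lemma qq_pow {x : ℝ} (hx : 0 ≤ x) : qq x ^ 4 = x := by
  have h1 : qq x ^ 2 = √x := sq_sqrt (sqrt_nonneg x)
  have h2 : √x ^ 2 = x := sq_sqrt hx
  calc qq x ^ 4 = (qq x ^ 2) ^ 2 := by ring
    _ = x := by rw [h1, h2]

lemma qq_mono {x y : ℝ} (h : x ≤ y) : qq x ≤ qq y := sqrt_le_sqrt (sqrt_le_sqrt h)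

lemma le_qq {a x : ℝ} (ha : 0 ≤ a) (h : a ^ 4 ≤ x) : a ≤ qq x := by
  have hx : 0 ≤ x := le_trans (by positivity) h
  exact pow_le_pow_left₀ ha le_rfl 0 |> fun _ =>
    (pow_le_pow_iff_left₀ ha (qq_nonneg x) (by norm_num : (4 : ℕ) ≠ 0)).1 (by rwa [qq_pow hx])

lemma qq_le {a x : ℝ} (ha : 0 ≤ a) (hx : 0 ≤ x) (h : x ≤ a ^ 4) : qq x ≤ a :=
  (pow_le_pow_iff_left₀ (qq_nonneg x) ha (by norm_num : (4 : ℕ) ≠ 0)).1 (by rwa [qq_pow hx])

lemma qq_div {x y : ℝ} (hx : 0 ≤ x) : qq (x / y) = qq x / qq y := by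
  unfold qq; rw [sqrt_div hx, sqrt_div (sqrt_nonneg x)]

lemma abs_sin_ge {n : ℕ} {d x : ℝ} (hd : 0 ≤ d) (h1 : n + d ≤ x) (h2 : x ≤ n + 1 - d) :
    2 * d ≤ |sin (π * x)| := by
  have e : |sin (π * x)| = |sin (π * (x - n))| := by
    rw [mul_sub, mul_comm π (n : ℝ), sin_sub_nat_mul_pi, abs_mul]
    simp
  rw [e]
  refine le_trans ?_ (le_abs_self _)
  rcases le_total (x - n) (1 / 2) with h | h
  · have := le_sin_mul (x := 2 * (x - n)) (by linarith) (by linarith)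
    rw [show π / 2 * (2 * (x - n)) = π * (x - n) by ring] at this
    linarith
  · have := le_sin_mul (x := 2 * (1 - (x - n))) (by linarith) (by linarith)
    rw [show π / 2 * (2 * (1 - (x - n))) = π - π * (x - n) by ring, sin_pi_sub] at this
    linarith

/-- The auxiliary cosine. -/
noncomputable def uu (t x : ℝ) : ℝ := 2 - 2 * ff x / t

lemma uu_sub_cos {n : ℕ} {t x : ℝ} (hn : 0 < (n : ℝ)) (ht : t ∈ Icc (n : ℝ) (n + 1))
    (hx : x ∈ Icc (n : ℝ) (n + 1)) : |uu t x - cos (π * x)| ≤ 4 / n := by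
  have ht0 : 0 < t := hn.trans_le ht.1
  have e : uu t x - cos (π * x) =
      (2 * (t - x) - 1 / 2 + (x + 1 / 2 - t) * cos (π * x)) / t := by
    unfold uu ff; field_simp; ring
  rw [e, abs_div, abs_of_pos ht0]
  have h1 : |(x + 1 / 2 - t) * cos (π * x)| ≤ 3 / 2 := by
    rw [abs_mul]
    have : |x + 1 / 2 - t| ≤ 3 / 2 := abs_le.2 ⟨by linarith [ht.2, hx.1], by linarith [ht.1, hx.2]⟩
    calc _ ≤ 3 / 2 * 1 := mul_le_mul this (abs_cos_le_one _) (abs_nonneg _) (by norm_num)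
      _ = _ := by norm_num
  have h2 : |2 * (t - x) - 1 / 2| ≤ 5 / 2 :=
    abs_le.2 ⟨by linarith [ht.1, hx.2], by linarith [ht.2, hx.1]⟩
  have h3 := abs_add_le (2 * (t - x) - 1 / 2) ((x + 1 / 2 - t) * cos (π * x))
  calc _ ≤ 4 / t := by gcongr; linarith
    _ ≤ 4 / n := by gcongr; exact ht.1

lemma DD_subset {n : ℕ} : DD n ⊆ Icc (n : ℝ) (n + 1) := by
  have : 0 ≤ 1 / qq n := by have := qq_nonneg n; positivity
  exact Icc_subset_Icc (by linarith) (by linarith)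

lemma aux_sqrt {S w c e : ℝ} (hw0 : 0 < w) (hw1 : w ≤ 1 / 10) (hS : 2 * w ≤ S)
    (hsc : S ^ 2 = 1 - c ^ 2) (hc : |c| ≤ 1) (he : |e| ≤ 4 * w ^ 4) :
    (S * (1 - 3 * w ^ 2)) ^ 2 ≤ 1 - (c + e) ^ 2 ∧ 1 - (c + e) ^ 2 ≤ (S * (1 + 2 * w ^ 2)) ^ 2 := by
  have hw2 : w ^ 2 ≤ 1 / 100 := by nlinarith
  have hw4 : w ^ 4 ≤ 1 / 100 * w ^ 2 := by
    rw [show w ^ 4 = w ^ 2 * w ^ 2 by ring]; gcongr
  have h9 : |e * (2 * c + e)| ≤ 12 * w ^ 4 := by
    rw [abs_mul]
    have h1 : |2 * c + e| ≤ 3 := by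
      have := abs_add_le (2 * c) e
      rw [abs_mul, abs_two] at this
      linarith
    calc |e| * |2 * c + e| ≤ 4 * w ^ 4 * 3 := by gcongr
      _ = _ := by ring
  obtain ⟨h9a, h9b⟩ := abs_le.1 h9
  have hS2 : (2 * w) ^ 2 ≤ S ^ 2 := by gcongr
  have h10 : 12 * w ^ 4 ≤ 3 * w ^ 2 * S ^ 2 := by
    calc 12 * w ^ 4 = 3 * w ^ 2 * (2 * w) ^ 2 := by ring
      _ ≤ _ := by gcongr
  have hu : 1 - (c + e) ^ 2 = S ^ 2 - e * (2 * c + e) := by rw [hsc]; ring
  have h11 : 9 * w ^ 4 * S ^ 2 ≤ 3 * w ^ 2 * S ^ 2 :=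
    mul_le_mul_of_nonneg_right (by linarith [sq_nonneg w]) (sq_nonneg S)
  have h12 : 0 ≤ w ^ 4 * S ^ 2 := by positivity
  have h13 : 0 ≤ w ^ 2 * S ^ 2 := by positivity
  rw [hu]
  constructor
  · have : (S * (1 - 3 * w ^ 2)) ^ 2 = S ^ 2 - 6 * w ^ 2 * S ^ 2 + 9 * w ^ 4 * S ^ 2 := by ring
    linarith
  · have : (S * (1 + 2 * w ^ 2)) ^ 2 = S ^ 2 + 4 * w ^ 2 * S ^ 2 + 4 * w ^ 4 * S ^ 2 := by ring
    linarith

lemma aux_deriv {w t x : ℝ} (hw0 : 0 < w) (hw1 : w ≤ 1 / 10) (hS : 2 * w ≤ |sin (π * x)|)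
    (htw : 1 ≤ t * w ^ 4) (h1 : t - 1 ≤ x) (h2 : x ≤ t + 1) :
    π * t / 2 * |sin (π * x)| * (1 - 2 * w ^ 2) ≤ |ff' x| ∧
      |ff' x| ≤ π * t / 2 * |sin (π * x)| * (1 + 2 * w ^ 2) := by
  set S := |sin (π * x)| with hSd
  have hS0 : 0 < S := by linarith
  have hw2 : w ^ 2 ≤ 1 / 100 := by nlinarith
  have ht0 : 0 < t := by
    by_contra h
    have : t * w ^ 4 ≤ 0 := mul_nonpos_of_nonpos_of_nonneg (not_lt.1 h) (by positivity)
    linarith
  have h100 : 100 ≤ t * w ^ 2 := by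
    have : t * w ^ 4 ≤ t * w ^ 2 * (1 / 100) := by
      rw [show t * w ^ 4 = t * w ^ 2 * w ^ 2 by ring]; gcongr
    linarith
  have ht1 : 100 ≤ t := by
    have : t * w ^ 2 ≤ t * 1 := by gcongr; linarith
    linarith
  set A := π * t / 2 with hA
  have hpi := pi_gt_three
  have hA1 : 3 / 2 * t ≤ A := by rw [hA]; nlinarith
  have hAS : 3 / 2 ≤ A * S * w ^ 2 := by
    have h2 : w ^ 2 ≤ S := by nlinarith
    calc 3 / 2 ≤ 3 / 2 * (t * w ^ 4) := by linarith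
      _ = 3 / 2 * t * w ^ 2 * w ^ 2 := by ring
      _ ≤ A * S * w ^ 2 := by gcongr
  have hm : |1 - cos (π * x) / 2| ≤ 3 / 2 :=
    abs_le.2 ⟨by linarith [cos_le_one (π * x)], by linarith [neg_one_le_cos (π * x)]⟩
  have hx0 : 0 < x / 2 + 1 / 4 := by linarith
  have hB : |(x / 2 + 1 / 4) * (π * sin (π * x))| = π * (x / 2 + 1 / 4) * S := by
    rw [abs_mul, abs_mul, abs_of_pos hx0, abs_of_pos pi_pos]; ring
  have hπw : π ≤ A * w ^ 2 := by
    calc π ≤ π / 2 * 100 := by linarith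
      _ ≤ π / 2 * (t * w ^ 2) := by gcongr
      _ = _ := by rw [hA]; ring
  have hB1 : (A - A * w ^ 2) * S ≤ π * (x / 2 + 1 / 4) * S := by
    refine mul_le_mul_of_nonneg_right ?_ hS0.le
    have : π * (t / 2 - 1) ≤ π * (x / 2 + 1 / 4) :=
      mul_le_mul_of_nonneg_left (by linarith) pi_pos.le
    linarith [show π * (t / 2 - 1) = A - π by rw [hA]; ring]
  have hB2 : π * (x / 2 + 1 / 4) * S ≤ (A + A * w ^ 2) * S := by
    refine mul_le_mul_of_nonneg_right ?_ hS0.le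
    have : π * (x / 2 + 1 / 4) ≤ π * (t / 2 + 1) :=
      mul_le_mul_of_nonneg_left (by linarith) pi_pos.le
    linarith [show π * (t / 2 + 1) = A + π by rw [hA]; ring]
  constructor
  · have := abs_sub_abs_le_abs_add ((x / 2 + 1 / 4) * (π * sin (π * x))) (1 - cos (π * x) / 2)
    rw [add_comm _ (1 - cos (π * x) / 2), hB] at this
    unfold ff'
    linarith
  · have := abs_add_le (1 - cos (π * x) / 2) ((x / 2 + 1 / 4) * (π * sin (π * x)))
    rw [hB] at this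
    unfold ff'
    linarith

/-- The basic estimates on `DD n`. -/
lemma estimates {n : ℕ} (hn : 10 ≤ qq n) {t x : ℝ} (ht : t ∈ Icc (n : ℝ) (n + 1))
    (hx : x ∈ DD n) : 0 < 1 - uu t x ^ 2 ∧
      π * t / 2 * √(1 - uu t x ^ 2) ≤ (1 + 1 / qq n) * |ff' x| ∧
      |ff' x| ≤ (1 + 1 / qq n) * (π * t / 2 * √(1 - uu t x ^ 2)) := by
  have hp0 : 0 < qq n := by linarith
  have hn4 : qq n ^ 4 = n := qq_pow (Nat.cast_nonneg n)
  have hn0 : (0 : ℝ) < n := by rw [← hn4]; positivity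
  have hx' := DD_subset hx
  have hS1 : 2 * (1 / qq n) ≤ |sin (π * x)| := abs_sin_ge (by positivity) hx.1 hx.2
  have he := uu_sub_cos hn0 ht hx'
  obtain ⟨w, hw⟩ : ∃ w, w = 1 / qq n := ⟨_, rfl⟩
  have hw0 : 0 < w := by rw [hw]; positivity
  have hw1 : w ≤ 1 / 10 := by rw [hw]; gcongr
  have hnw : (n : ℝ) * w ^ 4 = 1 := by rw [← hn4, hw]; field_simp
  have hnw' : 4 / (n : ℝ) = 4 * w ^ 4 := by field_simp; linarith
  rw [← hw] at hS1 ⊢
  rw [hnw'] at he
  have ht0 : 0 < t := hn0.trans_le ht.1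
  obtain ⟨hlo2, hup2⟩ := aux_sqrt hw0 hw1 hS1 (by rw [sq_abs, sin_sq]) (abs_cos_le_one _) he
  rw [add_sub_cancel] at hlo2 hup2
  obtain ⟨hf1, hf2⟩ := aux_deriv (t := t) hw0 hw1 hS1
    (by rw [← hnw]; gcongr; exact ht.1) (by linarith [ht.2, hx'.1]) (by linarith [ht.1, hx'.2])
  generalize |sin (π * x)| = S at *
  have hS0 : 0 < S := by linarith
  have hw2 : w ^ 2 ≤ 1 / 10 * w := by nlinarith
  have hw3 : 0 < 1 - 3 * w ^ 2 := by linarith
  have hup : √(1 - uu t x ^ 2) ≤ S * (1 + 2 * w ^ 2) := (sqrt_le_left (by positivity)).2 hup2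
  have hlo : S * (1 - 3 * w ^ 2) ≤ √(1 - uu t x ^ 2) := le_sqrt_of_sq_le hlo2
  have hA0 : 0 < π * t / 2 := by have := pi_pos; positivity
  generalize π * t / 2 = A at *
  have hAS0 : 0 < A * S := mul_pos hA0 hS0
  have hw4 : w * w ^ 2 ≤ 1 / 10 * w ^ 2 := by gcongr
  refine ⟨lt_of_lt_of_le (by positivity) hlo2, ?_, ?_⟩
  · calc A * √(1 - uu t x ^ 2) ≤ A * (S * (1 + 2 * w ^ 2)) := by gcongr
      _ = A * S * (1 + 2 * w ^ 2) := by ring
      _ ≤ A * S * ((1 + w) * (1 - 2 * w ^ 2)) := by gcongr; nlinarith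
      _ = (1 + w) * (A * S * (1 - 2 * w ^ 2)) := by ring
      _ ≤ _ := by gcongr
  · calc |ff' x| ≤ A * S * (1 + 2 * w ^ 2) := hf2
      _ ≤ A * S * ((1 + w) * (1 - 3 * w ^ 2)) := by gcongr; nlinarith
      _ = (1 + w) * (A * (S * (1 - 3 * w ^ 2))) := by ring
      _ ≤ _ := by gcongr

/-- The angle with `t * mm (sg t x) = ff x`. -/
noncomputable def sg (t x : ℝ) : ℝ := arccos (uu t x) / π

section loc

variable {n : ℕ} (hn : 10 ≤ qq n) {t : ℝ} (ht : t ∈ Icc (n : ℝ) (n + 1))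

include hn in
lemma n_pos : (0 : ℝ) < n := by
  rw [← qq_pow (Nat.cast_nonneg n)]; positivity

include hn ht

lemma uu_mem {x : ℝ} (hx : x ∈ DD n) : -1 < uu t x ∧ uu t x < 1 := by
  have := (estimates hn ht hx).1
  constructor <;> nlinarith

lemma mul_mm_sg {x : ℝ} (hx : x ∈ DD n) : t * mm (sg t x) = ff x := by
  have ht0 : 0 < t := (n_pos hn).trans_le ht.1
  have h := uu_mem hn ht hx
  rw [mm, sg, mul_div_cancel₀ _ pi_ne_zero, cos_arccos h.1.le h.2.le, uu]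
  field_simp; ring

lemma sg_mem {x : ℝ} (hx : x ∈ DD n) : sg t x ∈ Ioo (0 : ℝ) 1 := by
  have h := uu_mem hn ht hx
  exact ⟨div_pos (arccos_pos.2 h.2) pi_pos, (div_lt_one pi_pos).2 (arccos_lt_pi.2 h.1)⟩

lemma hasDerivAt_sg {x : ℝ} (hx : x ∈ DD n) :
    HasDerivAt (sg t) (ff' x / (π * t / 2 * √(1 - uu t x ^ 2))) x := by
  have ht0 : 0 < t := (n_pos hn).trans_le ht.1
  have h := uu_mem hn ht hx
  have h1 : HasDerivAt (uu t) (-(2 * ff' x / t)) x :=
    (((hasDerivAt_ff x).const_mul 2).div_const t).const_sub 2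
  have h2 := ((hasDerivAt_arccos h.1.ne' h.2.ne).comp x h1).div_const π
  refine h2.congr_deriv ?_
  have := sqrt_pos.2 (estimates hn ht hx).1
  field_simp

lemma injOn_sg : InjOn (sg t) (DD n) := by
  have key : ∀ x ∈ DD n, ∀ y ∈ DD n, x < y → sg t x ≠ sg t y := by
    intro x hx y hy hxy h
    have hm : ∀ z ∈ Icc x y, z ∈ DD n := fun z hz => ⟨hx.1.trans hz.1, hz.2.trans hy.2⟩
    have e : ff x = ff y := by rw [← mul_mm_sg hn ht hx, h, mul_mm_sg hn ht hy]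
    obtain ⟨c, hc, hc0⟩ := exists_hasDerivAt_eq_zero hxy continuous_ff.continuousOn e
      (fun z _ => hasDerivAt_ff z)
    obtain ⟨h1, h2, -⟩ := estimates hn ht (hm c (Ioo_subset_Icc_self hc))
    rw [hc0, abs_zero, mul_zero] at h2
    have ht0 : 0 < t := (n_pos hn).trans_le ht.1
    have := sqrt_pos.2 h1
    have := pi_pos
    exact absurd h2 (not_le.2 (by positivity))
  intro x hx y hy h
  rcases lt_trichotomy x y with h1 | h1 | h1
  · exact absurd h (key x hx y hy h1)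
  · exact h1
  · exact absurd h.symm (key y hy x hx h1)

lemma lintegral_sg (G : ℝ → ℝ≥0∞) : ∫⁻ s in sg t '' DD n, G s =
    ∫⁻ x in DD n, ENNReal.ofReal |ff' x / (π * t / 2 * √(1 - uu t x ^ 2))| * G (sg t x) :=
  lintegral_image_eq_lintegral_abs_deriv_mul measurableSet_Icc
    (fun _ hx => (hasDerivAt_sg hn ht hx).hasDerivWithinAt) (injOn_sg hn ht) G

lemma local_upper (g : ℝ → ℝ≥0∞) : ∫⁻ x in DD n, g (ff x) ≤
    ENNReal.ofReal (1 + 1 / qq n) * ∫⁻ s in Ioo (0 : ℝ) 1, g (t * mm s) := by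
  have ht0 : 0 < t := (n_pos hn).trans_le ht.1
  have hw : 0 ≤ 1 + 1 / qq n := by have := qq_nonneg n; positivity
  calc ∫⁻ x in DD n, g (ff x) ≤ ∫⁻ x in DD n, ENNReal.ofReal (1 + 1 / qq n) *
        (ENNReal.ofReal |ff' x / (π * t / 2 * √(1 - uu t x ^ 2))| * g (t * mm (sg t x))) := by
        refine setLIntegral_mono' measurableSet_Icc fun x hx => ?_
        obtain ⟨h1, h2, -⟩ := estimates hn ht hx
        have h3 : 0 < π * t / 2 * √(1 - uu t x ^ 2) := by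
          have := sqrt_pos.2 h1
          have := pi_pos
          positivity
        rw [mul_mm_sg hn ht hx, ← mul_assoc, ← ENNReal.ofReal_mul hw]
        refine le_mul_of_one_le_left' (ENNReal.one_le_ofReal.2 ?_)
        rw [abs_div, abs_of_pos h3, ← mul_div_assoc, le_div_iff₀ h3, one_mul]
        exact h2
    _ = ENNReal.ofReal (1 + 1 / qq n) * ∫⁻ s in sg t '' DD n, g (t * mm s) := by
        rw [lintegral_const_mul' _ _ ENNReal.ofReal_ne_top, lintegral_sg hn ht]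
    _ ≤ _ := by
        gcongr
        rintro _ ⟨x, hx, rfl⟩
        exact sg_mem hn ht hx

lemma Icc_subset_image : Icc (2 / qq n) (1 - 2 / qq n) ⊆ sg t '' DD n := by
  have hp0 : 0 < qq n := by linarith
  have hn0 := n_pos hn
  obtain ⟨w, hw⟩ : ∃ w, w = 1 / qq n := ⟨_, rfl⟩
  have hw0 : 0 < w := by rw [hw]; positivity
  have hw1 : w ≤ 1 / 10 := by rw [hw]; gcongr
  have hnw : (n : ℝ) * w ^ 4 = 1 := by
    rw [← qq_pow (Nat.cast_nonneg n), hw]; field_simp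
  have hnw' : 4 / (n : ℝ) = 4 * w ^ 4 := by field_simp; linarith
  have hD : DD n = Icc (n + w) (n + 1 - w) := by rw [hw]; rfl
  have hle : (n : ℝ) + w ≤ n + 1 - w := by linarith
  have hpi := pi_pos
  have key : cos (2 * (π * w)) + 4 * w ^ 4 ≤ cos (π * w) := by
    have h1 : 2 * w ≤ |sin (π * w)| := abs_sin_ge (n := 0) hw0.le (by simp) (by simp; linarith)
    have h2 : (2 * w) ^ 2 ≤ |sin (π * w)| ^ 2 := by gcongr
    rw [sq_abs, sin_sq] at h2
    have h3 : 0 ≤ cos (π * w) :=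
      cos_nonneg_of_neg_pi_div_two_le_of_le (by nlinarith) (by nlinarith)
    have h4 := cos_le_one (π * w)
    have h5 : 2 * w ^ 2 ≤ 1 - cos (π * w) := by nlinarith
    have h6 : 4 * w ^ 4 ≤ 2 * w ^ 2 := by nlinarith [sq_nonneg w, mul_pos hw0 hw0]
    rw [cos_two_mul]
    nlinarith
  have lo : ∀ x ∈ DD n, cos (π * x) = cos (π * w) → sg t x ≤ 2 * w := by
    intro x hx hc
    have he := abs_le.1 (uu_sub_cos hn0 ht (DD_subset hx))
    rw [sg, div_le_iff₀ hpi, ← arccos_cos (x := 2 * w * π) (by positivity) (by nlinarith)]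
    refine arccos_le_arccos ?_
    rw [show 2 * w * π = 2 * (π * w) by ring]
    linarith [he.1]
  have hi : ∀ x ∈ DD n, cos (π * x) = -cos (π * w) → 1 - 2 * w ≤ sg t x := by
    intro x hx hc
    have he := abs_le.1 (uu_sub_cos hn0 ht (DD_subset hx))
    rw [sg, le_div_iff₀ hpi, ← arccos_cos (x := (1 - 2 * w) * π) (by nlinarith) (by nlinarith)]
    refine arccos_le_arccos ?_
    rw [show (1 - 2 * w) * π = π - 2 * (π * w) by ring, cos_pi_sub]
    linarith [he.2]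
  have ha : (n : ℝ) + w ∈ DD n := hD ▸ left_mem_Icc.2 hle
  have hb : (n : ℝ) + 1 - w ∈ DD n := hD ▸ right_mem_Icc.2 hle
  have ca : cos (π * (n + w)) = (-1) ^ n * cos (π * w) := by
    rw [show π * (n + w) = π * w + n * π by ring, cos_add_nat_mul_pi]
  have cb : cos (π * (n + 1 - w)) = (-1) ^ n * -cos (π * w) := by
    rw [show π * (n + 1 - w) = (π - π * w) + n * π by ring, cos_add_nat_mul_pi, cos_pi_sub]
  have hcont : ContinuousOn (sg t) (Icc (n + w) (n + 1 - w)) := fun x hx =>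
    (hasDerivAt_sg hn ht (hD ▸ hx)).continuousAt.continuousWithinAt
  rw [show 2 / qq n = 2 * w by rw [hw]; ring, hD]
  rcases neg_one_pow_eq_or ℝ n with h | h
  · rw [h, one_mul] at ca cb
    exact (Icc_subset_Icc (lo _ ha ca) (hi _ hb cb)).trans (intermediate_value_Icc hle hcont)
  · rw [h, neg_one_mul] at ca cb
    rw [neg_neg] at cb
    exact (Icc_subset_Icc (lo _ hb cb) (hi _ ha ca)).trans (intermediate_value_Icc' hle hcont)

lemma local_lower (g : ℝ → ℝ≥0∞) : ∫⁻ s in Icc (2 / qq n) (1 - 2 / qq n), g (t * mm s) ≤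
    ENNReal.ofReal (1 + 1 / qq n) * ∫⁻ x in DD n, g (ff x) := by
  have ht0 : 0 < t := (n_pos hn).trans_le ht.1
  calc _ ≤ ∫⁻ s in sg t '' DD n, g (t * mm s) := lintegral_mono_set (Icc_subset_image hn ht)
    _ ≤ ∫⁻ x in DD n, ENNReal.ofReal (1 + 1 / qq n) * g (ff x) := by
        rw [lintegral_sg hn ht]
        refine setLIntegral_mono' measurableSet_Icc fun x hx => ?_
        obtain ⟨h1, -, h2⟩ := estimates hn ht hx
        have h3 : 0 < π * t / 2 * √(1 - uu t x ^ 2) := by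
          have := sqrt_pos.2 h1
          have := pi_pos
          positivity
        rw [mul_mm_sg hn ht hx]
        gcongr
        rw [abs_div, abs_of_pos h3, div_le_iff₀ h3]
        exact h2
    _ = _ := lintegral_const_mul' _ _ ENNReal.ofReal_ne_top

end loc

end Pool.Agent.Lib.MP_2dc536_an
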