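import Pool.Agent.Lib.MP_2dc536_an.Upper

/-!
A positive proportion of the orbits meets a given set of positive measure.
-/

namespace Pool.Agent.Lib.MP_2dc536_an

open Real Set MeasureTheory Filter Topology
open scoped ENNReal

/-- The truncated weight. -/
noncomputable def Vw (X B : ℝ) : ℝ → ℝ≥0∞ := (Iic X).indicator (wt 1 (-B))

lemma measurable_Vw (X B : ℝ) : Measurable (Vw X B) :=
  (measurable_wt _ _).indicator measurableSet_Iic

/-- The lower bound for the image of the truncated weight. -/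
noncomputable def Kw (X B y : ℝ) : ℝ≥0∞ := ∫⁻ s in Icc (3 / qq y) (1 - 3 / qq y),
  Vw (X - 1) (513 / 512 * B + 3) (y / mm s) * ENNReal.ofReal (mm s)⁻¹

lemma lower_wt {N : ℕ} (hN : 6000 ≤ qq N) (X : ℝ) {g : ℝ → ℝ≥0∞} (hg : Measurable g) :
    ∫⁻ y in Ioi (0 : ℝ), g y * Kw X (qq N) y ≤ ∫⁻ y in Ioi (0 : ℝ), PP N g y * Vw X (qq N) y := by
  rw [lintegral_PP (by linarith)]
  refine step_lower (by linarith) (measurable_Vw _ _) hg ?_ ?_
  · intro n hn x hx t ht
    by_cases htX : t ∈ Iic (X - 1)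
    swap
    · rw [Vw, indicator_of_notMem htX, zero_mul]; exact zero_le
    obtain ⟨w, hw, hw0, hw1, hwp, h3, h4, hn0, hp, h5⟩ :=
      ratio_bounds (hN.trans (qq_mono (by exact_mod_cast hn))) ht.1 ht.2.le
    obtain ⟨hx1, hx3⟩ := DD_subset hx
    obtain ⟨w', hw', -, -, -, h3', -⟩ :=
      ratio_bounds (hN.trans (qq_mono (by exact_mod_cast hn))) hx1 hx3
    obtain rfl : w' = w := hw'.trans hw.symm
    have hxX : x ∈ Iic X := by
      have : t ≤ X - 1 := htX
      change x ≤ X
      linarith [ht.1]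
    have hx2 : qq n ≤ qq x := qq_mono hx1
    have ht0 : 0 < t := hn0.trans_le ht.1
    have hx0 : 0 < x := hn0.trans_le hx1
    have hqt : 0 < qq t := qq_pos ht0
    have hqx : 0 < qq x := by linarith
    rw [Vw, Vw, indicator_of_mem htX, indicator_of_mem hxX, wt, wt,
      ← ENNReal.ofReal_mul' (by positivity), ← hw]
    refine ENNReal.ofReal_le_ofReal ?_
    set B := qq N with hB
    have hB0 : 0 ≤ B := by linarith
    have hw2 : w' ^ 2 ≤ w' / 6000 := by nlinarith
    have e1 : 1 / x ≤ (1 + w' ^ 2) / t := by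
      rw [div_le_div_iff₀ (by linarith) ht0]; nlinarith [sq_nonneg w']
    have e2 : 1 / qq x ≤ (1 + w' ^ 2) / qq t := by
      rw [div_le_div_iff₀ (by linarith) hqt]; nlinarith [sq_nonneg w']
    have e3 : w' ≤ (1 + w' ^ 2) / qq t := by
      rw [le_div_iff₀ hqt]; nlinarith
    have e4 : (1 - w' ^ 2) / t ≤ 1 / x := by
      rw [div_le_div_iff₀ ht0 hx0]
      have : (1 - w' ^ 2) * x ≤ (1 - w' ^ 2) * (n * (1 + w' ^ 2)) := by gcongr; linarith
      nlinarith [ht.1, mul_nonneg hn0.le (sq_nonneg (w' ^ 2))]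
    have e5 : B / (x * qq x) ≤ 513 / 512 * B / (t * qq t) := by
      have h6 : (1 + w' ^ 2) * (1 + w' ^ 2) ≤ 513 / 512 := by nlinarith
      calc B / (x * qq x) = B * (1 / x) * (1 / qq x) := by field_simp
        _ ≤ B * ((1 + w' ^ 2) / t) * ((1 + w' ^ 2) / qq t) := by gcongr
        _ = B / (t * qq t) * ((1 + w' ^ 2) * (1 + w' ^ 2)) := by field_simp
        _ ≤ B / (t * qq t) * (513 / 512) := by gcongr
        _ = _ := by ring
    have e6 : (w' + w' ^ 2) / t ≤ 3 / (t * qq t) := by
      have : 2 * ((1 + w' ^ 2) / qq t) ≤ 3 / qq t := by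
        rw [← mul_div_assoc]; gcongr; linarith
      rw [mul_comm t, ← div_div]
      gcongr
      linarith
    have e7 : 0 ≤ (513 / 512 * B + 3) / (t * qq t) * w' := by positivity
    have e8 : (1 / t + -(513 / 512 * B + 3) / (t * qq t)) * (1 + w') =
        (1 - w' ^ 2) / t + (w' + w' ^ 2) / t - 513 / 512 * B / (t * qq t) - 3 / (t * qq t) -
          (513 / 512 * B + 3) / (t * qq t) * w' := by ring
    rw [e8, neg_div]
    linarith
  · intro t ht htN
    by_cases htX : t ∈ Iic (X - 1)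
    · rw [Vw, indicator_of_mem htX, wt, ENNReal.ofReal_eq_zero]
      have h1 := qq_mono htN.le
      have h2 := qq_pos ht
      have : 1 / t ≤ (513 / 512 * qq N + 3) / (t * qq t) := by
        rw [div_le_div_iff₀ ht (by positivity)]; nlinarith
      rw [neg_div]; linarith
    · rw [Vw, indicator_of_notMem htX]

lemma Kw_eq {X B y : ℝ} (hy : 0 < y) (hX : 2 * y ≤ X - 1) : Kw X B y =
    ∫⁻ s in Icc (3 / qq y) (1 - 3 / qq y),
      ENNReal.ofReal (1 / y + -(513 / 512 * B + 3) / (y * qq y) * qq (mm s)) := by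
  refine lintegral_congr fun s => ?_
  rw [Vw, indicator_of_mem, wt_div _ _ hy]
  rw [mem_Iic, div_le_iff₀ (mm_pos s)]
  nlinarith [mm_ge s]

lemma wt_le_Kw {X B y : ℝ} (hB : 6000 ≤ B) (hy : 0 < y) (hX : 2 * y ≤ X - 1) :
    wt 1 (-B) y ≤ Kw X B y := by
  have hq := qq_pos hy
  have hδ : 0 < 3 / qq y := by positivity
  set c := (513 / 512 * B + 3) / (y * qq y) with hc
  have hc0 : 0 ≤ c := by positivity
  have h1 : ENNReal.ofReal (1 / y * (1 - 3 / qq y - 3 / qq y)) ≤
      Kw X B y + ENNReal.ofReal (0 + c * (1 - 1 / 256)) := by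
    rw [Kw_eq hy hX]
    calc _ = ∫⁻ _ in Icc (3 / qq y) (1 - 3 / qq y), ENNReal.ofReal (1 / y) := by
          rw [setLIntegral_const, Real.volume_Icc, ENNReal.ofReal_mul (by positivity)]
      _ ≤ ∫⁻ s in Icc (3 / qq y) (1 - 3 / qq y),
          (ENNReal.ofReal (1 / y + -(513 / 512 * B + 3) / (y * qq y) * qq (mm s)) +
            ENNReal.ofReal (0 + c * qq (mm s))) := by
          refine lintegral_mono fun s => le_trans (le_of_eq ?_) ENNReal.ofReal_add_le
          congr 1; rw [hc]; ring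
      _ ≤ _ := by
          have := measurable_qq
          have := measurable_mm
          rw [lintegral_add_right _ (by fun_prop)]
          gcongr
          exact (lintegral_mono_set (Icc_subset_Ioo hδ (sub_lt_self 1 hδ))).trans
            (lint_qq_mm le_rfl hc0)
  rw [← tsub_le_iff_right, ← ENNReal.ofReal_sub _ (by positivity)] at h1
  refine le_trans (ENNReal.ofReal_le_ofReal ?_) h1
  have : 1 / y * (1 - 3 / qq y - 3 / qq y) - (0 + c * (1 - 1 / 256)) =
      1 / y + -(6 + (513 / 512 * B + 3) * (255 / 256)) / (y * qq y) := by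
    rw [hc]; field_simp; ring
  rw [this]
  gcongr
  linarith

lemma le_Kw {N : ℕ} (hN : 6000 ≤ qq N) {X y : ℝ} (hX : 2 * N ≤ X - 1) (hy : y ∈ Ico ((N : ℝ) - 1) N) :
    ENNReal.ofReal (1 / (240 * N)) ≤ Kw X (qq N) y := by
  have hN4 := qq_pow (Nat.cast_nonneg N : (0 : ℝ) ≤ N)
  have hN1 : (6000 : ℝ) ^ 4 ≤ N := by rw [← hN4]; gcongr
  have hy0 : 0 < y := by linarith [hy.1]
  have hq : 999 / 1000 * qq N ≤ qq y := by
    refine le_qq (by linarith) ?_
    rw [mul_pow, hN4]
    linarith [hy.1]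
  have hq0 := qq_pos hy0
  have hδ : 3 / qq y ≤ 1 / 4 := by rw [div_le_div_iff₀ hq0 (by norm_num)]; linarith
  rw [Kw_eq hy0 (by linarith [hy.2])]
  refine le_trans ?_ (lintegral_mono_set
    (Icc_subset_Icc hδ (show 1 / 3 ≤ 1 - 3 / qq y by linarith)))
  calc ENNReal.ofReal (1 / (240 * N)) = ∫⁻ _ in Icc (1 / 4 : ℝ) (1 / 3),
        ENNReal.ofReal (1 / (20 * N)) := by
        rw [setLIntegral_const, Real.volume_Icc, ← ENNReal.ofReal_mul (by positivity)]
        congr 1; ring
    _ ≤ _ := by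
        refine setLIntegral_mono' measurableSet_Icc fun s hs => ENNReal.ofReal_le_ofReal ?_
        have hpi := pi_pos
        have h1 : cos (π / 3) ≤ cos (π * s) :=
          cos_le_cos_of_nonneg_of_le_pi (by nlinarith [hs.1]) (by linarith) (by nlinarith [hs.2])
        rw [cos_pi_div_three] at h1
        have h2 : qq (mm s) ≤ 931 / 1000 :=
          qq_le (by norm_num) (mm_pos s).le (by unfold mm; norm_num; linarith)
        have h3 : (513 / 512 * qq N + 3) / (y * qq y) * qq (mm s) ≤ 19 / 20 * (1 / y) := by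
          calc _ ≤ (513 / 512 * qq N + 3) / (y * qq y) * (931 / 1000) := by gcongr
            _ = 1 / y * ((513 / 512 * qq N + 3) * (931 / 1000) / qq y) := by field_simp
            _ ≤ 1 / y * (19 / 20) := by
              refine mul_le_mul_of_nonneg_left ?_ (by positivity)
              rw [div_le_iff₀ hq0]; linarith
            _ = _ := by ring
        have h4 : 1 / (20 * (N : ℝ)) ≤ 1 / 20 * (1 / y) := by
          rw [one_div_mul_one_div]; gcongr; exact hy.2.le
        rw [neg_div, neg_mul]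
        linarith

lemma subsolution {N : ℕ} (hN : 6000 ≤ qq N) {X : ℝ} (hX : 1 < X) (g : ℝ → ℝ≥0∞)
    (hg : Measurable g) : ∫⁻ y in Ioi (0 : ℝ), g y * Vw X (qq N) y ≤
      ENNReal.ofReal (2 / (X - 1)) * (∫⁻ y in Icc ((X - 1) / 2) X, g y) +
        ∫⁻ y in Ioi (0 : ℝ), PP N g y * Vw X (qq N) y := by
  refine le_trans ?_ (add_le_add le_rfl (lower_wt hN X hg))
  rw [← lintegral_const_mul _ hg, ← lintegral_indicator measurableSet_Icc]
  refine le_trans ?_ (add_le_add (setLIntegral_le_lintegral (Ioi 0) _) le_rfl)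
  rw [← lintegral_add_left ((hg.const_mul _).indicator measurableSet_Icc)]
  refine setLIntegral_mono' measurableSet_Ioi fun y hy => ?_
  have hy0 : 0 < y := hy
  by_cases h1 : y ∈ Iic X
  swap
  · rw [Vw, indicator_of_notMem h1, mul_zero]; exact zero_le
  rw [Vw, indicator_of_mem h1]
  rcases le_total (2 * y) (X - 1) with h2 | h2
  · exact le_add_left (by gcongr; exact wt_le_Kw hN hy0 h2)
  · refine le_add_right ?_
    rw [indicator_of_mem (show y ∈ Icc ((X - 1) / 2) X from ⟨by linarith, h1⟩), mul_comm]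
    gcongr
    refine ENNReal.ofReal_le_ofReal ?_
    have h3 : 1 / y ≤ 2 / (X - 1) := by rw [div_le_div_iff₀ hy0 (by linarith)]; linarith
    have h4 : 0 ≤ qq N / (y * qq y) := by have := qq_pos hy0; have := qq_nonneg N; positivity
    rw [neg_div]; linarith

lemma hit {N : ℕ} {J : Set ℝ} (hJ : Disjoint J (UD N)) (K : ℕ) : ∀ x : ℝ,
    ∑ k ∈ Finset.range K, (PP N)^[k] (J.indicator 1) x ≤
      {x | ∃ k, ff^[k] x ∈ J}.indicator 1 x := by
  induction K with
  | zero => intro x; simp
  | succ K ih =>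
    intro x
    rw [Finset.sum_range_succ']
    by_cases h : x ∈ UD N
    · simp only [Function.iterate_succ_apply', PP, indicator_of_mem h, Function.iterate_zero, id,
        indicator_of_notMem (Set.disjoint_right.1 hJ h), add_zero]
      refine (ih (ff x)).trans ?_
      by_cases h2 : ff x ∈ {x | ∃ k, ff^[k] x ∈ J}
      · obtain ⟨k, hk⟩ := id h2
        rw [indicator_of_mem h2, indicator_of_mem (show x ∈ {x | ∃ k, ff^[k] x ∈ J} from ⟨k + 1, hk⟩)]
        rfl
      · rw [indicator_of_notMem h2]; exact zero_le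
    · simp only [Function.iterate_succ_apply', PP, indicator_of_notMem h, Function.iterate_zero, id,
        Finset.sum_const_zero, zero_add]
      exact indicator_le_indicator_of_subset (show J ⊆ {x | ∃ k, ff^[k] x ∈ J} from
        fun z hz => ⟨0, hz⟩) (fun _ => zero_le) x

lemma good_ge {N : ℕ} (hN : 6000 ≤ qq N) {J : Set ℝ} (hJ : MeasurableSet J)
    (hJN : J ⊆ Ico ((N : ℝ) - 1) N) {X : ℝ} (hX : 2 * N ≤ X - 1) :
    ENNReal.ofReal (1 / (240 * N)) * volume J ≤ ENNReal.ofReal (2 / (X - 1)) *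
      volume {x ∈ Icc ((X - 1) / 2) X | ∃ k, ff^[k] x ∈ J} := by
  have hN0 : (0 : ℝ) < N := n_pos (by linarith)
  have hN1 : (1 : ℝ) < N := by
    rw [← qq_pow hN0.le]; exact one_lt_pow₀ (by linarith) (by norm_num)
  have hX1 : 1 < X := by linarith
  have hm1 : Measurable (J.indicator (1 : ℝ → ℝ≥0∞)) := measurable_one.indicator hJ
  have hm2 := measurable_PP N hm1
  have hH : MeasurableSet {x | ∃ k, ff^[k] x ∈ J} := by
    rw [ofPred_exists]
    exact MeasurableSet.iUnion fun k => (measurable_ff.iterate k) hJ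
  have hdis : Disjoint J (UD N) :=
    Set.disjoint_left.2 fun x hx hx' => absurd (UD_subset N hx') (not_le.2 (hJN hx).2)
  have h1 : ENNReal.ofReal (1 / (240 * N)) * volume J ≤
      ∫⁻ y in Ioi (0 : ℝ), PP N (J.indicator 1) y * Vw X (qq N) y := by
    refine le_trans ?_ (lower_wt hN X hm1)
    rw [← setLIntegral_const]
    refine le_trans (setLIntegral_mono' hJ fun y hy => ?_) (lintegral_mono_set
      (show J ⊆ Ioi 0 from fun y hy => by have := (hJN hy).1; change 0 < y; linarith))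
    rw [indicator_of_mem hy, Pi.one_apply, one_mul]
    exact le_Kw hN hX (hJN hy)
  have hqX := qq_pos (show 0 < X by linarith)
  have h2 := tendsto_PP hN hqX.le hm2 (ne_top_of_le_ne_top
    (ENNReal.ofReal_ne_top (r := 4 * (600 * qq X) / qq N)) (by
      rw [← lintegral_wt (by positivity) hN0, lintegral_PP (by linarith)]
      refine le_trans (lintegral_mono fun x => ?_) (lintegral_mono_set (UD_subset N))
      refine mul_le_of_le_one_left' ?_
      by_cases h : ff x ∈ J <;> simp [h]))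
  have h3 : ∀ K, ENNReal.ofReal (1 / (240 * N)) * volume J ≤ ENNReal.ofReal (2 / (X - 1)) *
      volume {x ∈ Icc ((X - 1) / 2) X | ∃ k, ff^[k] x ∈ J} +
      ∫⁻ y in Ioi (0 : ℝ), (PP N)^[K] (PP N (J.indicator 1)) y * wt 0 (qq X) y := by
    intro K
    refine h1.trans ((green_ge (N := N)
      (A := fun g => ENNReal.ofReal (2 / (X - 1)) * ∫⁻ y in Icc ((X - 1) / 2) X, g y)
      (B := fun g => ∫⁻ y in Ioi (0 : ℝ), g y * Vw X (qq N) y)
      (subsolution hN hX1) K _ hm2).trans (add_le_add ?_ ?_))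
    · rw [← Finset.mul_sum, ← lintegral_finsetSum _ fun k _ => measurable_PP_iter N k hm2]
      gcongr
      calc _ ≤ ∫⁻ x in Icc ((X - 1) / 2) X, {x | ∃ k, ff^[k] x ∈ J}.indicator 1 x := by
            refine lintegral_mono fun x => le_trans ?_ (hit hdis (K + 1) x)
            rw [Finset.sum_range_succ']
            exact le_self_add
        _ = _ := by
            rw [lintegral_indicator_one hH, Measure.restrict_apply hH, inter_comm]; rfl
    · refine setLIntegral_mono' measurableSet_Ioi fun y hy => ?_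
      have hy0 : 0 < y := hy
      gcongr
      by_cases h : y ∈ Iic X
      · rw [Vw, indicator_of_mem h]
        refine ENNReal.ofReal_le_ofReal ?_
        have h4 := qq_pos hy0
        have h5 : 1 / y ≤ qq X / (y * qq y) := by
          rw [div_le_div_iff₀ hy0 (by positivity)]
          have := qq_mono (show y ≤ X from h)
          nlinarith
        have h6 : 0 ≤ qq N / (y * qq y) := by have := qq_nonneg N; positivity
        rw [neg_div, zero_div]; linarith
      · rw [Vw, indicator_of_notMem h]; exact zero_le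
  have h4 := h2.const_add (ENNReal.ofReal (2 / (X - 1)) *
    volume {x ∈ Icc ((X - 1) / 2) X | ∃ k, ff^[k] x ∈ J})
  rw [add_zero] at h4
  exact ge_of_tendsto' h4 h3

lemma pull_up {S : Set ℝ} {n : ℕ} (h : volume (S ∩ Icc (n : ℝ) (n + 1)) ≠ 0) :
    volume (ff ⁻¹' S ∩ Icc ((2 * n : ℕ) : ℝ) ((2 * n : ℕ) + 1)) ≠ 0 := by
  intro h0
  apply h
  refine measure_mono_null ?_ (addHaar_image_eq_zero_of_differentiableOn_of_addHaar_eq_zero volume
    (f := ff) (fun x _ => (hasDerivAt_ff x).differentiableAt.differentiableWithinAt) h0)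
  rintro y ⟨hyS, hy⟩
  have e1 : ff ((2 * n : ℕ) : ℝ) = n := by
    rw [ff, mul_comm π, cos_nat_mul_pi]; simp; ring
  have e2 : ff (((2 * n : ℕ) : ℝ) + 1) = 3 * n + 2 := by
    rw [ff, mul_add, mul_one, cos_add_pi, mul_comm π, cos_nat_mul_pi]; simp; ring
  obtain ⟨x, hx, rfl⟩ := intermediate_value_Icc (by linarith : ((2 * n : ℕ) : ℝ) ≤ (2 * n : ℕ) + 1)
    continuous_ff.continuousOn (show y ∈ Icc _ _ by
      rw [e1, e2]; exact ⟨hy.1, by linarith [hy.2, (Nat.cast_nonneg n : (0 : ℝ) ≤ n)]⟩)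
  exact ⟨x, ⟨hyS, hx⟩, rfl⟩

lemma pull_up_iter {S : Set ℝ} {n : ℕ} (h : volume (S ∩ Icc (n : ℝ) (n + 1)) ≠ 0) (j : ℕ) :
    volume (ff^[j] ⁻¹' S ∩ Icc ((2 ^ j * n : ℕ) : ℝ) ((2 ^ j * n : ℕ) + 1)) ≠ 0 := by
  induction j with
  | zero => simpa using h
  | succ j ih =>
    have := pull_up ih
    rwa [← mul_assoc, ← pow_succ', ← preimage_comp, ← Function.iterate_succ] at this

end Pool.Agent.Lib.MP_2dc536_an
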