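import Pool.Agent.Lib.MP_2dc536_an.Local

/-!
One-step upper and lower bounds for the transfer operator of Chamberland's map.
-/

namespace Pool.Agent.Lib.MP_2dc536_an

open Real Set MeasureTheory
open scoped ENNReal

/-- The region where the map is followed. -/
def UD (N : ℕ) : Set ℝ := ⋃ k : ℕ, DD (N + k)

lemma measurableSet_UD (N : ℕ) : MeasurableSet (UD N) :=
  MeasurableSet.iUnion fun _ => measurableSet_Icc

lemma UD_subset (N : ℕ) : UD N ⊆ Ici (N : ℝ) := by
  rintro x ⟨_, ⟨k, rfl⟩, hx⟩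
  have := (DD_subset hx).1
  push_cast at this
  exact le_trans (by simp) this

lemma measurable_mm : Measurable mm := continuous_mm.measurable

lemma measurable_ff : Measurable ff := continuous_ff.measurable

lemma measurable_qq : Measurable qq := continuous_qq.measurable

lemma tonelli {Φ : ℝ × ℝ → ℝ≥0∞} (hΦ : Measurable Φ) {Wb : ℝ → ℝ≥0∞} (hW : Measurable Wb) :
    ∫⁻ t in Ioi (0 : ℝ), Wb t * ∫⁻ s in Ioo (0 : ℝ) 1, Φ (s, t * mm s) =
      ∫⁻ y in Ioi (0 : ℝ), ∫⁻ s in Ioo (0 : ℝ) 1,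
        Φ (s, y) * (Wb (y / mm s) * ENNReal.ofReal (mm s)⁻¹) := by
  have hm := measurable_mm
  have h1 : ∀ t, Wb t * ∫⁻ s in Ioo (0 : ℝ) 1, Φ (s, t * mm s) =
      ∫⁻ s in Ioo (0 : ℝ) 1, Wb t * Φ (s, t * mm s) := fun t =>
    (lintegral_const_mul _ (by fun_prop)).symm
  simp only [h1]
  rw [lintegral_lintegral_swap (Measurable.aemeasurable (by fun_prop)),
    lintegral_lintegral_swap (f := fun y s => Φ (s, y) * (Wb (y / mm s) * ENNReal.ofReal (mm s)⁻¹))
      (Measurable.aemeasurable (by fun_prop))]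
  refine lintegral_congr fun s => ?_
  have hs := mm_pos s
  have him : (fun y => y / mm s) '' Ioi (0 : ℝ) = Ioi 0 := by
    ext t
    constructor
    · rintro ⟨y, hy, rfl⟩; exact div_pos hy hs
    · intro ht; exact ⟨t * mm s, mul_pos ht hs, by field_simp⟩
  have := lintegral_image_eq_lintegral_abs_deriv_mul (f := fun y => y / mm s)
    (f' := fun _ => (mm s)⁻¹) (s := Ioi 0) measurableSet_Ioi
    (fun y _ => by simpa [div_eq_mul_inv] using (hasDerivAt_mul_const (mm s)⁻¹).hasDerivWithinAt)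
    (fun a _ b _ h => (div_left_inj' hs.ne').1 h) (fun t => Wb t * Φ (s, t * mm s))
  rw [him] at this
  rw [this]
  refine lintegral_congr fun y => ?_
  rw [div_mul_cancel₀ _ hs.ne', abs_of_pos (inv_pos.2 hs)]
  ring

lemma iUnion_Ico (N : ℕ) : ⋃ k : ℕ, Ico ((N + k : ℕ) : ℝ) ((N + k : ℕ) + 1) = Ici (N : ℝ) := by
  ext t
  simp only [mem_iUnion, mem_Ico, mem_Ici]
  constructor
  · rintro ⟨k, h, -⟩
    push_cast at h
    exact le_trans (by simp) h
  · intro h
    have h0 : 0 ≤ t := (Nat.cast_nonneg N).trans h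
    obtain ⟨k, hk⟩ := Nat.exists_eq_add_of_le (Nat.le_floor h)
    exact ⟨k, hk ▸ Nat.floor_le h0, hk ▸ Nat.lt_floor_add_one t⟩

lemma pairwise_Ico (N : ℕ) : Pairwise (Function.onFun Disjoint
    fun k : ℕ => Ico ((N + k : ℕ) : ℝ) ((N + k : ℕ) + 1)) := by
  have key : ∀ i j : ℕ, i < j → Disjoint (Ico ((N + i : ℕ) : ℝ) ((N + i : ℕ) + 1))
      (Ico ((N + j : ℕ) : ℝ) ((N + j : ℕ) + 1)) := by
    intro i j hij
    rw [Set.disjoint_left]
    rintro x ⟨-, h1⟩ ⟨h2, -⟩
    have : (i : ℝ) + 1 ≤ j := by exact_mod_cast hij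
    push_cast at h1 h2
    linarith
  intro i j hij
  rcases hij.lt_or_gt with h | h
  · exact key i j h
  · exact (key j i h).symm

lemma lintegral_Ici (N : ℕ) (F : ℝ → ℝ≥0∞) : ∫⁻ t in Ici (N : ℝ), F t =
    ∑' k : ℕ, ∫⁻ t in Ico ((N + k : ℕ) : ℝ) ((N + k : ℕ) + 1), F t := by
  rw [← iUnion_Ico, lintegral_iUnion (fun _ => measurableSet_Ico) (pairwise_Ico N)]

lemma DD_subset_Ico {n : ℕ} (hn : 10 ≤ qq n) : DD n ⊆ Ico (n : ℝ) (n + 1) := by
  have : 0 < 1 / qq n := by positivity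
  exact fun x hx => ⟨(DD_subset hx).1, by linarith [hx.2]⟩

lemma qq_add {N : ℕ} {c : ℝ} (hN : c ≤ qq N) (k : ℕ) : c ≤ qq (N + k : ℕ) :=
  hN.trans (qq_mono (by simp))

lemma lintegral_UD {N : ℕ} (hN : 10 ≤ qq N) (F : ℝ → ℝ≥0∞) :
    ∫⁻ x in UD N, F x = ∑' k : ℕ, ∫⁻ x in DD (N + k), F x :=
  lintegral_iUnion (fun _ => measurableSet_Icc)
    (fun _ _ h => (pairwise_Ico N h).mono (DD_subset_Ico (qq_add hN _))
      (DD_subset_Ico (qq_add hN _))) F

lemma step_upper {N : ℕ} (hN : 10 ≤ qq N) {W Wb g : ℝ → ℝ≥0∞} (hW : Measurable Wb)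
    (hg : Measurable g) (h : ∀ n : ℕ, N ≤ n → ∀ x ∈ DD n, ∀ t ∈ Ico (n : ℝ) (n + 1),
      W x * ENNReal.ofReal (1 + 1 / qq n) ≤ Wb t) :
    ∫⁻ x in UD N, g (ff x) * W x ≤ ∫⁻ y in Ioi (0 : ℝ), g y *
      ∫⁻ s in Ioo (0 : ℝ) 1, Wb (y / mm s) * ENNReal.ofReal (mm s)⁻¹ := by
  have hm := measurable_mm
  have hf := measurable_ff
  have h1 : ∀ y, g y * ∫⁻ s in Ioo (0 : ℝ) 1, Wb (y / mm s) * ENNReal.ofReal (mm s)⁻¹ =
      ∫⁻ s in Ioo (0 : ℝ) 1, g y * (Wb (y / mm s) * ENNReal.ofReal (mm s)⁻¹) := fun y =>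
    (lintegral_const_mul _ (by fun_prop)).symm
  simp only [h1]
  rw [← tonelli (Φ := fun p => g p.2) (by fun_prop) hW, lintegral_UD hN]
  have hsub : Ici (N : ℝ) ⊆ Ioi 0 := fun t ht => (n_pos hN).trans_le ht
  refine le_trans ?_ (lintegral_mono_set hsub)
  rw [lintegral_Ici]
  refine ENNReal.tsum_le_tsum fun k => ?_
  have hn := qq_add hN k
  have hc0 : ENNReal.ofReal (1 + 1 / qq (N + k : ℕ)) ≠ 0 := by
    rw [Ne, ENNReal.ofReal_eq_zero, not_le]; positivity
  calc ∫⁻ x in DD (N + k), g (ff x) * W x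
      = ∫⁻ _ in Ico ((N + k : ℕ) : ℝ) ((N + k : ℕ) + 1), ∫⁻ x in DD (N + k), g (ff x) * W x := by
        simp
    _ ≤ _ := by
        refine setLIntegral_mono' measurableSet_Ico fun t ht => ?_
        rw [← ENNReal.mul_le_mul_iff_right hc0 ENNReal.ofReal_ne_top,
          ← lintegral_const_mul' _ _ ENNReal.ofReal_ne_top]
        calc _ ≤ ∫⁻ x in DD (N + k), Wb t * g (ff x) := by
              refine setLIntegral_mono' measurableSet_Icc fun x hx => ?_
              have := h (N + k) (by omega) x hx t ht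
              calc _ = (W x * ENNReal.ofReal (1 + 1 / qq (N + k : ℕ))) * g (ff x) := by ring
                _ ≤ _ := by gcongr
          _ = Wb t * ∫⁻ x in DD (N + k), g (ff x) := lintegral_const_mul _ (by fun_prop)
          _ ≤ Wb t * (ENNReal.ofReal (1 + 1 / qq (N + k : ℕ)) *
              ∫⁻ s in Ioo (0 : ℝ) 1, g (t * mm s)) := by
              gcongr
              exact local_upper hn (Ico_subset_Icc_self ht) g
          _ = _ := by ring

lemma step_lower {N : ℕ} (hN : 10 ≤ qq N) {W Wb g : ℝ → ℝ≥0∞} (hW : Measurable Wb)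
    (hg : Measurable g) (h : ∀ n : ℕ, N ≤ n → ∀ x ∈ DD n, ∀ t ∈ Ico (n : ℝ) (n + 1),
      Wb t * ENNReal.ofReal (1 + 1 / qq n) ≤ W x) (h0 : ∀ t : ℝ, 0 < t → t < N → Wb t = 0) :
    ∫⁻ y in Ioi (0 : ℝ), g y * ∫⁻ s in Icc (3 / qq y) (1 - 3 / qq y),
      Wb (y / mm s) * ENNReal.ofReal (mm s)⁻¹ ≤ ∫⁻ x in UD N, g (ff x) * W x := by
  have hm := measurable_mm
  have hf := measurable_ff
  have hq := measurable_qq
  let A : Set (ℝ × ℝ) := {p | 3 / qq p.2 ≤ p.1 ∧ p.1 ≤ 1 - 3 / qq p.2}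
  have hA : MeasurableSet A :=
    (measurableSet_le (f := fun p : ℝ × ℝ => 3 / qq p.2) (by fun_prop) measurable_fst).inter
      (measurableSet_le (g := fun p : ℝ × ℝ => 1 - 3 / qq p.2) measurable_fst (by fun_prop))
  have hΦ : Measurable (A.indicator fun p => g p.2) := Measurable.indicator (by fun_prop) hA
  have h1 : ∀ y ∈ Ioi (0 : ℝ), g y * ∫⁻ s in Icc (3 / qq y) (1 - 3 / qq y),
      Wb (y / mm s) * ENNReal.ofReal (mm s)⁻¹ ≤ ∫⁻ s in Ioo (0 : ℝ) 1,
        A.indicator (fun p => g p.2) (s, y) * (Wb (y / mm s) * ENNReal.ofReal (mm s)⁻¹) := by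
    intro y hy
    have hq0 : 0 < 3 / qq y := by have := qq_pos hy; positivity
    rw [← lintegral_const_mul _ (by fun_prop)]
    refine le_trans (le_of_eq ?_) (lintegral_mono_set (Icc_subset_Ioo hq0 (sub_lt_self 1 hq0)))
    refine setLIntegral_congr_fun measurableSet_Icc fun s hs => ?_
    rw [indicator_of_mem (show (s, y) ∈ A from hs)]
  refine le_trans (setLIntegral_mono' measurableSet_Ioi h1) ?_
  rw [← tonelli hΦ hW, lintegral_UD hN]
  have hN0 := n_pos hN
  have h2 : ∫⁻ t in Ioi (0 : ℝ), Wb t * ∫⁻ s in Ioo (0 : ℝ) 1,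
      A.indicator (fun p => g p.2) (s, t * mm s) ≤ ∫⁻ t in Ici (N : ℝ), Wb t *
      ∫⁻ s in Ioo (0 : ℝ) 1, A.indicator (fun p => g p.2) (s, t * mm s) := by
    rw [← lintegral_indicator measurableSet_Ici]
    refine le_trans (setLIntegral_mono' measurableSet_Ioi fun t ht => ?_)
      (setLIntegral_le_lintegral _ _)
    by_cases htN : t ∈ Ici (N : ℝ)
    · rw [indicator_of_mem htN]
    · rw [h0 t ht (not_le.1 htN)]; simp
  refine h2.trans ?_
  rw [lintegral_Ici]
  refine ENNReal.tsum_le_tsum fun k => ?_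
  have hn := qq_add hN k
  have hn0 := n_pos hn
  calc _ ≤ ∫⁻ _ in Ico ((N + k : ℕ) : ℝ) ((N + k : ℕ) + 1),
        ∫⁻ x in DD (N + k), g (ff x) * W x := by
        refine setLIntegral_mono' measurableSet_Ico fun t ht => ?_
        have h3 : ∫⁻ s in Ioo (0 : ℝ) 1, A.indicator (fun p => g p.2) (s, t * mm s) ≤
            ∫⁻ s in Icc (2 / qq (N + k : ℕ)) (1 - 2 / qq (N + k : ℕ)), g (t * mm s) := by
          rw [← lintegral_indicator measurableSet_Icc]
          refine le_trans (setLIntegral_le_lintegral _ _) (lintegral_mono fun s => ?_)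
          by_cases hs : (s, t * mm s) ∈ A
          · have ht0 : 0 < t := hn0.trans_le ht.1
            have hy0 := mul_pos ht0 (mm_pos s)
            have h4 : qq (t * mm s) ≤ 3 / 2 * qq (N + k : ℕ) := by
              refine qq_le (by positivity) hy0.le ?_
              rw [mul_pow, qq_pow hn0.le]
              have h5 : (1 : ℝ) ≤ (N + k : ℕ) := by exact_mod_cast hn0
              have : t * mm s ≤ t * (3 / 2) := by gcongr; exact mm_le s
              linarith [ht.2]
            have h5 : 2 / qq (N + k : ℕ) ≤ 3 / qq (t * mm s) := by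
              rw [div_le_div_iff₀ (by linarith) (qq_pos hy0)]; linarith
            rw [indicator_of_mem hs, indicator_of_mem]
            exact ⟨h5.trans hs.1, hs.2.trans (by linarith)⟩
          · rw [indicator_of_notMem hs]; exact zero_le
        calc _ ≤ Wb t * (ENNReal.ofReal (1 + 1 / qq (N + k : ℕ)) *
              ∫⁻ x in DD (N + k), g (ff x)) := by
              gcongr
              exact h3.trans (local_lower hn (Ico_subset_Icc_self ht) g)
          _ = ∫⁻ x in DD (N + k), (Wb t * ENNReal.ofReal (1 + 1 / qq (N + k : ℕ))) * g (ff x) := by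
              rw [← mul_assoc, lintegral_const_mul _ (by fun_prop)]
          _ ≤ _ := by
              refine setLIntegral_mono' measurableSet_Icc fun x hx => ?_
              rw [mul_comm (g _)]
              gcongr
              exact h (N + k) (by omega) x hx t ht
    _ = _ := by simp

lemma qq_mm_le (s : ℝ) : qq (mm s) ≤ 1 - cos (π * s) / 8 - cos (π * s) ^ 2 / 128 := by
  have h1 := neg_one_le_cos (π * s)
  have h2 := cos_le_one (π * s)
  set c := cos (π * s) with hc
  have h3 : √(mm s) ≤ 1 - c / 4 - c ^ 2 / 64 := by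
    rw [sqrt_le_left (by nlinarith), mm, ← hc]
    nlinarith [sq_nonneg c, mul_nonneg (sq_nonneg c) (by linarith : (0 : ℝ) ≤ c + 1)]
  have h4 : √(√(mm s)) ≤ (1 + √(mm s)) / 2 := by
    rw [sqrt_le_left (by positivity)]
    nlinarith [sq_nonneg (1 - √(mm s))]
  unfold qq
  linarith

lemma lint_qq_mm {a c : ℝ} (ha : 0 ≤ a) (hc : 0 ≤ c) :
    ∫⁻ s in Ioo (0 : ℝ) 1, ENNReal.ofReal (a + c * qq (mm s)) ≤
      ENNReal.ofReal (a + c * (1 - 1 / 256)) := by
  have hcont : Continuous fun s : ℝ => a + c * (1 - cos (π * s) / 8 - cos (π * s) ^ 2 / 128) := by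
    fun_prop
  have hint : ∫ s in (0 : ℝ)..1, (a + c * (1 - cos (π * s) / 8 - cos (π * s) ^ 2 / 128)) =
      a + c * (1 - 1 / 256) := by
    have hd : ∀ s ∈ uIcc (0 : ℝ) 1, HasDerivAt (fun s => a * s + c * (s - sin (π * s) / (8 * π) -
        (s + sin (π * s) * cos (π * s) / π) / 256))
        (a + c * (1 - cos (π * s) / 8 - cos (π * s) ^ 2 / 128)) s := by
      intro s _
      have h0 : HasDerivAt (fun s => π * s) (π * 1) s := (hasDerivAt_id s).const_mul π
      have h := ((hasDerivAt_id s).const_mul a).add ((((hasDerivAt_id s).sub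
        (h0.sin.div_const (8 * π))).sub (((hasDerivAt_id s).add
          ((h0.sin.mul h0.cos).div_const π)).div_const 256)).const_mul c)
      refine h.congr_deriv ?_
      have := sin_sq (π * s)
      field_simp
      linear_combination (1024 * c) * this
    rw [intervalIntegral.integral_eq_sub_of_hasDerivAt hd (hcont.intervalIntegrable _ _)]
    simp
  calc _ ≤ ∫⁻ s in Ioo (0 : ℝ) 1,
        ENNReal.ofReal (a + c * (1 - cos (π * s) / 8 - cos (π * s) ^ 2 / 128)) := by
        gcongr with s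
        exact qq_mm_le s
    _ = _ := by
        rw [← hint, intervalIntegral.integral_of_le zero_le_one, integral_Ioc_eq_integral_Ioo,
          ofReal_integral_eq_lintegral_ofReal
            ((hcont.integrableOn_Icc).mono_set Ioo_subset_Icc_self)]
        refine Filter.Eventually.of_forall fun s => ?_
        have := (qq_nonneg _).trans (qq_mm_le s)
        simp only [Pi.zero_apply]
        positivity

end Pool.Agent.Lib.MP_2dc536_an
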