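import Pool.Agent.Lib.MP_2dc536_an.Green

/-!
Most orbits come down.
-/

namespace Pool.Agent.Lib.MP_2dc536_an

open Real Set MeasureTheory Filter Topology
open scoped ENNReal

lemma supersolution {N : ℕ} (hN : 6000 ≤ qq N) {X : ℝ} (hX : 0 < X) (g : ℝ → ℝ≥0∞)
    (hg : Measurable g) :
    (∫⁻ y in Icc X (2 * X), g y) + ∫⁻ y in Ioi (0 : ℝ), PP N g y *
      min (wt 0 (1500 * X * qq X) y) (wt (1500 * X) (1800 * (1500 * X)) y) ≤
    ∫⁻ y in Ioi (0 : ℝ), g y *
      min (wt 0 (1500 * X * qq X) y) (wt (1500 * X) (1800 * (1500 * X)) y) := by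
  have hq := qq_pos hX
  set β := 1500 * X * qq X with hβ
  set α := 1500 * X with hα
  have hα0 : 0 < α := by positivity
  have hβ0 : 0 < β := by positivity
  let H : Set ℝ := {y | wt 0 β y ≤ wt α (1800 * α) y}
  have hH : MeasurableSet H := measurableSet_le (measurable_wt _ _) (measurable_wt _ _)
  have hg1 : Measurable (H.indicator g) := hg.indicator hH
  have hg2 : Measurable (Hᶜ.indicator g) := hg.indicator hH.compl
  have h1 : ∫⁻ y in Icc X (2 * X), g y ≤ ∫⁻ y in Ioi (0 : ℝ), H.indicator g y * wt 0 (β / 600) y := by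
    refine le_trans (setLIntegral_mono' measurableSet_Icc fun y hy => ?_)
      (lintegral_mono_set (show Icc X (2 * X) ⊆ Ioi 0 from fun y hy => hX.trans_le hy.1))
    have hy0 : 0 < y := hX.trans_le hy.1
    have h2 : qq X ≤ qq y := qq_mono hy.1
    have hqy := qq_pos hy0
    have h3 : qq y ≤ 6 / 5 * qq X := by
      refine qq_le (by positivity) hy0.le ?_
      rw [mul_pow, qq_pow hX.le]; linarith [hy.2]
    have hyH : y ∈ H := by
      refine ENNReal.ofReal_le_ofReal ?_
      have : β / (y * qq y) ≤ α / y := by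
        rw [div_le_div_iff₀ (by positivity) hy0, hβ]
        have : α * qq X * y ≤ α * qq y * y := by gcongr
        linarith
      have : 0 ≤ 1800 * α / (y * qq y) := by have := qq_pos hy0; positivity
      rw [zero_div]; linarith
    rw [indicator_of_mem hyH]
    refine le_mul_of_one_le_right' (ENNReal.one_le_ofReal.2 ?_)
    rw [zero_div, zero_add, le_div_iff₀ (by have := qq_pos hy0; positivity), one_mul, hβ, hα]
    have : y * qq y ≤ 2 * X * (6 / 5 * qq X) := by gcongr; exact hy.2
    nlinarith
  have h2 : ∫⁻ y in Ioi (0 : ℝ), PP N g y * min (wt 0 β y) (wt α (1800 * α) y) ≤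
      (∫⁻ y in Ioi (0 : ℝ), H.indicator g y * wt 0 (3 * 0 + 599 / 600 * β) y) +
      ∫⁻ y in Ioi (0 : ℝ), Hᶜ.indicator g y * wt α (3 * α + 599 / 600 * (1800 * α)) y := by
    rw [lintegral_PP (by linarith)]
    refine le_trans ?_ (add_le_add (step_wt hN le_rfl hβ0.le hg1)
      (step_wt hN hα0.le (by positivity) hg2))
    rw [← lintegral_add_left (f := fun x => H.indicator g (ff x) * wt 0 β x)
      ((hg1.comp measurable_ff).mul (measurable_wt _ _))]
    refine lintegral_mono fun x => ?_
    by_cases h : ff x ∈ H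
    · simp only [indicator_of_mem h]
      exact le_add_right (by gcongr; exact min_le_left _ _)
    · simp only [indicator_of_mem (mem_compl h)]
      exact le_add_left (by gcongr; exact min_le_right _ _)
  refine (add_le_add h1 h2).trans (le_of_eq ?_)
  rw [← add_assoc, ← lintegral_add_left (f := fun y => H.indicator g y * wt 0 (β / 600) y)
    (hg1.mul (measurable_wt _ _)), ← lintegral_add_right
      (g := fun y => Hᶜ.indicator g y * wt α (3 * α + 599 / 600 * (1800 * α)) y) _
      (hg2.mul (measurable_wt _ _))]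
  refine setLIntegral_congr_fun measurableSet_Ioi fun y hy => ?_
  by_cases h : y ∈ H
  · simp only [indicator_of_mem h, indicator_of_notMem (notMem_compl_iff.2 h), zero_mul, add_zero]
    rw [← mul_add, wt_add le_rfl (by positivity) le_rfl (by positivity) hy, min_eq_left h]
    congr 2 <;> ring
  · simp only [indicator_of_notMem h, indicator_of_mem (mem_compl h), zero_mul, zero_add]
    rw [min_eq_right (not_le.1 h).le]
    congr 2; ring

lemma cover (N K : ℕ) : ∀ x : ℝ, (∀ k, (N : ℝ) ≤ ff^[k] x) →
    1 ≤ (PP N)^[K] ((Ici (N : ℝ)).indicator 1) x +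
      ∑ k ∈ Finset.range K, (PP N)^[k] ((Ici (N : ℝ) \ UD N).indicator 1) x := by
  induction K with
  | zero => intro x hx; simp [indicator_of_mem (show x ∈ Ici (N : ℝ) from hx 0)]
  | succ K ih =>
    intro x hx
    rw [Finset.sum_range_succ']
    by_cases h : x ∈ UD N
    · simp only [Function.iterate_succ_apply', PP, indicator_of_mem h]
      exact (ih (ff x) fun k => hx (k + 1)).trans (by gcongr; exact le_self_add)
    · have : x ∈ Ici (N : ℝ) \ UD N := ⟨hx 0, h⟩
      simp only [Function.iterate_zero, id, indicator_of_mem this, Pi.one_apply]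
      exact le_add_left le_add_self

lemma trap_le {N : ℕ} (hN : 6000 ≤ qq N) {α : ℝ} (hα : 0 ≤ α) :
    ∫⁻ y in Ici (N : ℝ), (Ici (N : ℝ) \ UD N).indicator 1 y * wt α (1800 * α) y ≤
      ENNReal.ofReal (4 * (5 * α) / qq N) := by
  rw [← lintegral_wt (by positivity) (n_pos (by linarith)), lintegral_Ici, lintegral_Ici]
  refine ENNReal.tsum_le_tsum fun k => ?_
  have hn := qq_add hN k
  set n := N + k with hnd
  have hn0 : (0 : ℝ) < n := n_pos (by linarith)
  have hp : 0 < qq n := by linarith
  have h1 : ∫⁻ y in Ico (n : ℝ) (n + 1), (Ici (N : ℝ) \ UD N).indicator 1 y * wt α (1800 * α) y ≤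
      ENNReal.ofReal (4 * α / (n * qq n)) := by
    calc _ ≤ ∫⁻ y in Ico (n : ℝ) (n + 1), (Icc (n : ℝ) (n + 1 / qq n) ∪
          Icc (n + 1 - 1 / qq n) (n + 1)).indicator (fun _ => ENNReal.ofReal (2 * α / n)) y := by
          refine setLIntegral_mono' measurableSet_Ico fun y hy => ?_
          by_cases h : y ∈ Ici (N : ℝ) \ UD N
          · have h2 : y ∈ Icc (n : ℝ) (n + 1 / qq n) ∪ Icc (n + 1 - 1 / qq n) (n + 1) := by
              by_contra h2
              simp only [mem_union, mem_Icc, not_or, not_and, not_le] at h2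
              refine h.2 (mem_iUnion.2 ⟨k, (h2.1 hy.1).le, ?_⟩)
              by_contra h3
              exact absurd (h2.2 (not_le.1 h3).le) (not_lt.2 hy.2.le)
            rw [indicator_of_mem h, indicator_of_mem h2, Pi.one_apply, one_mul]
            refine ENNReal.ofReal_le_ofReal ?_
            have hy0 : 0 < y := hn0.trans_le hy.1
            have h3 : 6000 ≤ qq y := hn.trans (qq_mono hy.1)
            have h4 : 1800 * α / (y * qq y) ≤ α / y := by
              rw [div_le_div_iff₀ (by positivity) hy0]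
              have : α * y * 1800 ≤ α * y * qq y := by gcongr; linarith
              linarith
            have h5 : α / y ≤ α / n := by gcongr; exact hy.1
            rw [mul_div_assoc 2]; linarith
          · rw [indicator_of_notMem h, zero_mul]; exact zero_le
      _ ≤ ENNReal.ofReal (2 * α / n) * volume (Icc (n : ℝ) (n + 1 / qq n) ∪
          Icc (n + 1 - 1 / qq n) (n + 1)) := by
          refine (setLIntegral_le_lintegral _ _).trans (le_of_eq ?_)
          rw [lintegral_indicator_const (measurableSet_Icc.union measurableSet_Icc)]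
      _ ≤ ENNReal.ofReal (2 * α / n) * (ENNReal.ofReal (1 / qq n) + ENNReal.ofReal (1 / qq n)) := by
          gcongr
          refine (measure_union_le _ _).trans (le_of_eq ?_)
          simp
      _ = _ := by
          rw [← ENNReal.ofReal_add (by positivity) (by positivity),
            ← ENNReal.ofReal_mul (by positivity)]
          congr 1; field_simp; ring
  refine h1.trans ?_
  calc _ = ∫⁻ _ in Ico (n : ℝ) (n + 1), ENNReal.ofReal (4 * α / (n * qq n)) := by simp
    _ ≤ _ := by
      refine setLIntegral_mono' measurableSet_Ico fun t ht => ENNReal.ofReal_le_ofReal ?_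
      obtain ⟨w, -, hw0, hw1, -, h3, h4, -, -, h5⟩ := ratio_bounds hn ht.1 ht.2.le
      have ht0 : 0 < t := hn0.trans_le ht.1
      have hqt := qq_pos ht0
      rw [zero_div, zero_add, div_le_div_iff₀ (by positivity) (by positivity)]
      have h7 : w ^ 2 ≤ 1 / 100 := by nlinarith
      have h6 : (1 + w ^ 2) * (1 + w ^ 2) ≤ 5 / 4 := by nlinarith [sq_nonneg w]
      calc 4 * α * (t * qq t) ≤ 4 * α * (n * (1 + w ^ 2) * (qq n * (1 + w ^ 2))) := by gcongr
        _ = 4 * α * (n * qq n) * ((1 + w ^ 2) * (1 + w ^ 2)) := by ring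
        _ ≤ 4 * α * (n * qq n) * (5 / 4) := by gcongr
        _ = _ := by ring

lemma lintegral_indicator_Ioi {N : ℕ} {T : Set ℝ} (hT : T ⊆ Ici (N : ℝ))
    (W : ℝ → ℝ≥0∞) : ∫⁻ y in Ioi (0 : ℝ), T.indicator 1 y * W y ≤
      ∫⁻ y in Ici (N : ℝ), T.indicator 1 y * W y := by
  rw [← lintegral_indicator measurableSet_Ici]
  refine (setLIntegral_le_lintegral _ _).trans (lintegral_mono fun y => ?_)
  by_cases h : y ∈ T
  · rw [indicator_of_mem (hT h)]
  · rw [indicator_of_notMem h, zero_mul]; exact zero_le

lemma bad_le {N : ℕ} (hN : 6000 ≤ qq N) {X : ℝ} (hX : 0 < X) :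
    volume {x ∈ Icc X (2 * X) | ∀ k, (N : ℝ) ≤ ff^[k] x} ≤ ENNReal.ofReal (30000 * X / qq N) := by
  have hG := green_le (N := N) (A := fun g => ∫⁻ y in Icc X (2 * X), g y) (supersolution hN hX)
  have hm1 : Measurable ((Ici (N : ℝ)).indicator (1 : ℝ → ℝ≥0∞)) :=
    measurable_one.indicator measurableSet_Ici
  have hm2 : Measurable ((Ici (N : ℝ) \ UD N).indicator (1 : ℝ → ℝ≥0∞)) :=
    measurable_one.indicator (measurableSet_Ici.diff (measurableSet_UD N))
  have hq := qq_pos hX
  have h1 : Tendsto (fun K => ∫⁻ y in Icc X (2 * X), (PP N)^[K] ((Ici (N : ℝ)).indicator 1) y)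
      atTop (𝓝 0) := by
    refine ENNReal.tendsto_atTop_zero_of_tsum_ne_top (ne_top_of_le_ne_top
      (ENNReal.ofReal_ne_top (r := 4 * (1500 * X * qq X) / qq N)) ?_)
    refine ENNReal.tsum_le_of_sum_range_le fun K => (hG K _ hm1).trans ?_
    rw [← lintegral_wt (by positivity) (n_pos (by linarith))]
    refine (lintegral_indicator_Ioi subset_rfl _).trans ?_
    refine setLIntegral_mono' measurableSet_Ici fun y hy => ?_
    rw [indicator_of_mem hy, Pi.one_apply, one_mul]
    exact min_le_left _ _
  have h2 : ∀ K, volume {x ∈ Icc X (2 * X) | ∀ k, (N : ℝ) ≤ ff^[k] x} ≤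
      (∫⁻ y in Icc X (2 * X), (PP N)^[K] ((Ici (N : ℝ)).indicator 1) y) +
        ENNReal.ofReal (30000 * X / qq N) := by
    intro K
    have hm3 : Measurable fun x => (PP N)^[K] ((Ici (N : ℝ)).indicator 1) x +
        ∑ k ∈ Finset.range K, (PP N)^[k] ((Ici (N : ℝ) \ UD N).indicator 1) x :=
      (measurable_PP_iter N K hm1).add
        (Finset.measurable_fun_sum _ fun k _ => measurable_PP_iter N k hm2)
    calc _ ≤ (volume.restrict (Icc X (2 * X))) {x | ∀ k, (N : ℝ) ≤ ff^[k] x} := by
          rw [Measure.restrict_apply' measurableSet_Icc]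
          exact measure_mono fun x hx => ⟨hx.2, hx.1⟩
      _ ≤ _ := meas_le_lintegral₀ hm3.aemeasurable (cover N K)
      _ ≤ _ := by
          rw [lintegral_add_left (measurable_PP_iter N K hm1),
            lintegral_finsetSum _ fun k _ => measurable_PP_iter N k hm2]
          gcongr
          refine (hG K _ hm2).trans ((lintegral_indicator_Ioi sdiff_subset _).trans ?_)
          refine le_trans (lintegral_mono fun y => ?_) ((trap_le hN (α := 1500 * X)
            (by positivity)).trans (le_of_eq (by congr 1; ring)))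
          gcongr
          exact min_le_right _ _
  have h3 := h1.add_const (ENNReal.ofReal (30000 * X / qq N))
  rw [zero_add] at h3
  exact ge_of_tendsto' h3 h2

lemma bad_le' {N : ℕ} (hN : 6000 ≤ qq N) {X : ℝ} (hX : 0 ≤ X) :
    volume {x ∈ Icc 0 X | ∀ k, (N : ℝ) ≤ ff^[k] x} ≤ ENNReal.ofReal (30000 * X / qq N) := by
  have hN0 : (0 : ℝ) < N := n_pos (by linarith)
  have key : ∀ j : ℕ, ∀ X : ℝ, 0 ≤ X → X < 2 ^ j * N →
      volume {x ∈ Icc 0 X | ∀ k, (N : ℝ) ≤ ff^[k] x} ≤ ENNReal.ofReal (30000 * X / qq N) := by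
    intro j
    induction j with
    | zero =>
      intro X _ h
      rw [show {x ∈ Icc 0 X | ∀ k, (N : ℝ) ≤ ff^[k] x} = ∅ from ?_, measure_empty]
      · exact zero_le
      · refine eq_empty_of_forall_notMem fun x hx => ?_
        have := hx.2 0
        simp only [Function.iterate_zero, id] at this
        linarith [hx.1.2]
    | succ j ih =>
      intro X h0 h
      rcases h0.eq_or_lt with rfl | h0'
      · exact (measure_mono (sep_subset _ _)).trans (by simp)
      have h1 := ih (X / 2) (by positivity) (by rw [pow_succ] at h; linarith)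
      have h2 := bad_le hN (half_pos h0')
      refine le_trans (measure_mono ?_) ((measure_union_le _ _).trans ((add_le_add h1 h2).trans
        (le_of_eq ?_)))
      · intro x hx
        rcases le_total x (X / 2) with h3 | h3
        · exact Or.inl ⟨⟨hx.1.1, h3⟩, hx.2⟩
        · exact Or.inr ⟨⟨h3, by linarith [hx.1.2]⟩, hx.2⟩
      · have : 0 < qq N := by linarith
        rw [← ENNReal.ofReal_add (by positivity) (by positivity)]
        congr 1; ring
  obtain ⟨j, hj⟩ := pow_unbounded_of_one_lt (X / N) (one_lt_two (α := ℝ))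
  exact key j X hX ((div_lt_iff₀ hN0).1 hj)

end Pool.Agent.Lib.MP_2dc536_an
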